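import Mathlib

/-!
# The polynomial inequality behind the three vertex certificate
-/

set_option autoImplicit false

namespace Pool.Agent.H87.Br

/-- The vertex weight. -/
noncomputable def ee (p : ℝ) : ℝ := p * (1 - p) ^ 2 * (1 - p / 2)

/-- Lower bound for the weight of a non-edge. -/
noncomputable def m1 (a c : ℝ) : ℝ := a ^ 2 * c + a * c ^ 2 * (1 - a) ^ 2

/-- Lower bound for the weight of an edge. -/
noncomputable def et (t l b c : ℝ) : ℝ :=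
  (1 - b * c) * ((2 * t - t ^ 2) * ((1 - b) * (1 - c)) - t * (l * b + c / l))

theorem ee_nonneg {p : ℝ} (h0 : 0 ≤ p) (h1 : p ≤ 1) : 0 ≤ ee p := by
  unfold ee
  have : 0 ≤ 1 - p / 2 := by linarith
  positivity

theorem m1_nonneg {a c : ℝ} (h0 : 0 ≤ a) (h1 : 0 ≤ c) : 0 ≤ m1 a c := by
  unfold m1
  positivity

theorem r1 {a c : ℝ} (h1 : 1/5 ≤ c) (h2 : c ≤ a) (h3 : a ≤ 1) :
    0 ≤ 1 - 5/2*(a+c) + 2*(a^2+a*c+c^2) - 1/2*(a+c)*(a^2+c^2) + c*(a+c)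
      + c^2*(1 - 2*(a+c) + a^2 + a*c + c^2) := by
  nlinarith [mul_nonneg (sub_nonneg.2 h1) (sub_nonneg.2 h2),
    mul_nonneg (sub_nonneg.2 h1) (sub_nonneg.2 h3), mul_nonneg (sub_nonneg.2 h2) (sub_nonneg.2 h3),
    sq_nonneg (a - 7/10), sq_nonneg (c-1/5), sq_nonneg (a*c),
    mul_nonneg (mul_nonneg (sub_nonneg.2 h2) (sub_nonneg.2 h3)) (sub_nonneg.2 h1),
    sq_nonneg (a^2), sq_nonneg (c^2), sq_nonneg (a*c - a)]

theorem step_a {a c : ℝ} (h1 : 1/5 ≤ c) (h2 : c ≤ a) (h3 : a ≤ 1) :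
    ee c + m1 c c ≤ ee a + m1 a c := by
  have h := mul_nonneg (sub_nonneg.2 h2) (r1 h1 h2 h3)
  have e : (ee a + m1 a c) - (ee c + m1 c c)
      = (a - c) * (1 - 5/2*(a+c) + 2*(a^2+a*c+c^2) - 1/2*(a+c)*(a^2+c^2) + c*(a+c)
      + c^2*(1 - 2*(a+c) + a^2 + a*c + c^2)) := by
    unfold ee m1; ring
  linarith

theorem conc {t l c k b b0 v : ℝ} (hb : 0 ≤ b) (hb0 : b ≤ b0) (hpos : 0 < b0)
    (hW : c * ((2*t - t^2)*(1-c) + t*l) ≤ 5/2 - 2*(b+b0) + 1/2*(b^2+b*b0+b0^2))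
    (h0 : v ≤ et t l 0 c) (h1 : v ≤ ee b0 + k*b0 + et t l b0 c) :
    v ≤ ee b + k*b + et t l b c := by
  have key : b0 * ((ee b + k*b + et t l b c) - v)
      = (b0 - b) * (et t l 0 c - v) + b * ((ee b0 + k*b0 + et t l b0 c) - v)
        + b0 * (b * (b0 - b)) * ((5/2 - 2*(b+b0) + 1/2*(b^2+b*b0+b0^2))
          - c * ((2*t - t^2)*(1-c) + t*l)) := by
    unfold ee et; ring
  have p1 := mul_nonneg (sub_nonneg.2 hb0) (sub_nonneg.2 h0)
  have p2 := mul_nonneg hb (sub_nonneg.2 h1)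
  have p3 := mul_nonneg (mul_nonneg hpos.le (mul_nonneg hb (sub_nonneg.2 hb0))) (sub_nonneg.2 hW)
  have : 0 ≤ b0 * ((ee b + k*b + et t l b c) - v) := by rw [key]; linarith
  have := nonneg_of_mul_nonneg_right this hpos
  linarith

theorem chord {c k b b0 v : ℝ} (h0 : b0 ≤ b) (h1 : b ≤ c) (hlt : b0 < c)
    (hW : 0 ≤ 5/2 - 2*(b+b0+c) + 1/2*(b^2+b0^2+c^2+b*b0+b*c+b0*c))
    (hv0 : v ≤ ee b0 + k*b0) (hv1 : v ≤ ee c + k*c) : v ≤ ee b + k*b := by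
  have key : (c - b0) * ((ee b + k*b) - v)
      = (c - b) * ((ee b0 + k*b0) - v) + (b - b0) * ((ee c + k*c) - v)
        + (c - b0) * ((b - b0) * (c - b)) *
          (5/2 - 2*(b+b0+c) + 1/2*(b^2+b0^2+c^2+b*b0+b*c+b0*c)) := by
    unfold ee; ring
  have p0 : 0 < c - b0 := by linarith
  have p1 := mul_nonneg (sub_nonneg.2 h1) (sub_nonneg.2 hv0)
  have p2 := mul_nonneg (sub_nonneg.2 h0) (sub_nonneg.2 hv1)
  have p3 := mul_nonneg (mul_nonneg p0.le (mul_nonneg (sub_nonneg.2 h0) (sub_nonneg.2 h1))) hW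
  have : 0 ≤ (c - b0) * ((ee b + k*b) - v) := by rw [key]; linarith
  have := nonneg_of_mul_nonneg_right this p0
  linarith

theorem big {c : ℝ} (h1 : 3/4 ≤ c) (h2 : c ≤ 1) : 1/2 ≤ 2 * ee c + m1 c c := by
  unfold ee m1
  nlinarith [pow_nonneg (sub_nonneg.2 h1) 2, pow_nonneg (sub_nonneg.2 h1) 3,
    pow_nonneg (sub_nonneg.2 h1) 4,
    mul_nonneg (sub_nonneg.2 h1) (sub_nonneg.2 h2),
    mul_nonneg (pow_nonneg (sub_nonneg.2 h1) 2) (sub_nonneg.2 h2),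
    mul_nonneg (pow_nonneg (sub_nonneg.2 h1) 3) (sub_nonneg.2 h2),
    mul_nonneg (pow_nonneg (sub_nonneg.2 h1) 4) (sub_nonneg.2 h2),
    mul_nonneg (pow_nonneg (sub_nonneg.2 h1) 3) (pow_nonneg (sub_nonneg.2 h2) 2),
    mul_nonneg (pow_nonneg (sub_nonneg.2 h1) 2) (pow_nonneg (sub_nonneg.2 h2) 3),
    mul_nonneg (pow_nonneg (sub_nonneg.2 h1) 1) (pow_nonneg (sub_nonneg.2 h2) 4),
    pow_nonneg (sub_nonneg.2 h2) 5]

/-- The Bernstein products of degree five. -/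
theorem bern {c l r : ℝ} (h1 : l ≤ c) (h2 : c ≤ r) :
    0 ≤ (r - c)^5 ∧ 0 ≤ (c - l) * (r - c)^4 ∧ 0 ≤ (c - l)^2 * (r - c)^3 ∧
    0 ≤ (c - l)^3 * (r - c)^2 ∧ 0 ≤ (c - l)^4 * (r - c) ∧ 0 ≤ (c - l)^5 := by
  have p := sub_nonneg.2 h1
  have q := sub_nonneg.2 h2
  refine ⟨?_, ?_, ?_, ?_, ?_, ?_⟩ <;> positivity

-- 1/5 ≤ c ≤ 2/5
theorem B0 {c : ℝ} (h1 : 1/5 ≤ c) (h2 : c ≤ 2/5) :
    46/100 - (2 * ee c + m1 c c) ≤ et (1/4) 1 0 c := by
  obtain ⟨a0, a1, a2, a3, a4, a5⟩ := bern h1 h2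
  unfold ee m1 et
  nlinarith

theorem B1 {c : ℝ} (h1 : 1/5 ≤ c) (h2 : c ≤ 2/5) :
    46/100 - (2 * ee c + m1 c c) ≤ ee c + c^2 * c + et (1/4) 1 c c := by
  obtain ⟨a0, a1, a2, a3, a4, a5⟩ := bern h1 h2
  unfold ee m1 et
  nlinarith

theorem B0' {c : ℝ} (h1 : 1/5 ≤ c) (h2 : c ≤ 2/5) :
    1/2 - (2 * ee c + m1 c c) ≤ et (1/2) 1 0 c := by
  obtain ⟨a0, a1, a2, a3, a4, a5⟩ := bern h1 h2
  unfold ee m1 et
  nlinarith

theorem B1' {c : ℝ} (h1 : 1/5 ≤ c) (h2 : c ≤ 2/5) :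
    1/2 - (2 * ee c + m1 c c) ≤ ee c + 49/100 * c + et (1/2) 1 c c := by
  obtain ⟨a0, a1, a2, a3, a4, a5⟩ := bern h1 h2
  unfold ee m1 et
  nlinarith

-- 2/5 ≤ c ≤ 3/4, a ≤ 7/10
theorem C0 {c : ℝ} (h1 : 2/5 ≤ c) (h2 : c ≤ 3/4) :
    46/100 - (2 * ee c + m1 c c) ≤ et (1/2) 2 0 c := by
  obtain ⟨a0, a1, a2, a3, a4, a5⟩ := bern h1 h2
  unfold ee m1 et
  nlinarith

theorem C1 {c : ℝ} (h1 : 2/5 ≤ c) (h2 : c ≤ 3/4) :
    46/100 - (2 * ee c + m1 c c) ≤ ee (22/100) + c^2 * (22/100) + et (1/2) 2 (22/100) c := by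
  rcases le_total c (11/20) with h | h
  · obtain ⟨a0, a1, a2, a3, a4, a5⟩ := bern h1 h
    unfold ee m1 et
    nlinarith
  · obtain ⟨a0, a1, a2, a3, a4, a5⟩ := bern h h2
    unfold ee m1 et
    nlinarith

theorem C2 {c : ℝ} (h1 : 2/5 ≤ c) (h2 : c ≤ 3/4) :
    46/100 - (2 * ee c + m1 c c) ≤ ee (22/100) + c^2 * (22/100) := by
  obtain ⟨a0, a1, a2, a3, a4, a5⟩ := bern h1 h2
  unfold ee m1
  nlinarith

theorem C3 {c : ℝ} (h1 : 2/5 ≤ c) (h2 : c ≤ 3/4) :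
    46/100 - (2 * ee c + m1 c c) ≤ ee c + c^2 * c := by
  obtain ⟨a0, a1, a2, a3, a4, a5⟩ := bern h1 h2
  unfold ee m1
  nlinarith

-- 2/5 ≤ c ≤ 3/4, 7/10 ≤ a
theorem D0 {c : ℝ} (h1 : 2/5 ≤ c) (h2 : c ≤ 3/4) :
    1/2 - (2 * ee c + m1 c c) ≤ et (1/2) 2 0 c := by
  rcases le_total c (6/10) with h | h
  · obtain ⟨a0, a1, a2, a3, a4, a5⟩ := bern h1 h
    unfold ee m1 et
    nlinarith
  · obtain ⟨a0, a1, a2, a3, a4, a5⟩ := bern h h2
    unfold ee m1 et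
    nlinarith

theorem D3 {c : ℝ} (h1 : 2/5 ≤ c) (h2 : c ≤ 3/4) :
    1/2 - (2 * ee c + m1 c c) ≤ ee c + 49/100 * c := by
  obtain ⟨a0, a1, a2, a3, a4, a5⟩ := bern h1 h2
  unfold ee m1
  nlinarith

theorem D1 {c : ℝ} (h1 : 2/5 ≤ c) (h2 : c ≤ 11/20) :
    1/2 - (2 * ee c + m1 c c) ≤ ee (22/100) + 49/100 * (22/100) + et (1/2) 2 (22/100) c := by
  obtain ⟨a0, a1, a2, a3, a4, a5⟩ := bern h1 h2
  unfold ee m1 et
  nlinarith

theorem D2 {c : ℝ} (h1 : 2/5 ≤ c) (h2 : c ≤ 11/20) :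
    1/2 - (2 * ee c + m1 c c) ≤ ee (22/100) + 49/100 * (22/100) := by
  obtain ⟨a0, a1, a2, a3, a4, a5⟩ := bern h1 h2
  unfold ee m1
  nlinarith

theorem D1' {c : ℝ} (h1 : 11/20 ≤ c) (h2 : c ≤ 3/4) :
    1/2 - (2 * ee c + m1 c c) ≤ ee (12/100) + 49/100 * (12/100) + et (1/2) 2 (12/100) c := by
  obtain ⟨a0, a1, a2, a3, a4, a5⟩ := bern h1 h2
  unfold ee m1 et
  nlinarith

theorem D2' {c : ℝ} (h1 : 11/20 ≤ c) (h2 : c ≤ 3/4) :
    1/2 - (2 * ee c + m1 c c) ≤ ee (12/100) + 49/100 * (12/100) := by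
  obtain ⟨a0, a1, a2, a3, a4, a5⟩ := bern h1 h2
  unfold ee m1
  nlinarith

/-- The case of two small weights. -/
theorem small {b c : ℝ} (hb : 0 ≤ b) (hb1 : b ≤ 1/5) (hc : 0 ≤ c) (hc1 : c ≤ 1/5) :
    3/4 - 674/1000 * (b + c) ≤ ee b + ee c + et (1/2) 1 b c := by
  have h : ∀ x : ℝ, 0 ≤ x → x ≤ 1/5 → 576/1000 * x ≤ ee x := by
    intro x hx hx1
    have : ee x - 576/1000 * x = x * (1/5 - x) * (212/100 - 19/10 * x + 1/2 * x ^ 2) := by
      unfold ee; ring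
    have h2 : 0 ≤ 212/100 - 19/10 * x + 1/2 * x ^ 2 := by nlinarith
    have h3 := mul_nonneg (mul_nonneg hx (sub_nonneg.2 hx1)) h2
    linarith
  have e1 : et (1/2) 1 b c = 3/4 - 5/4 * (b + c) + (b * c) * (5/4 * (b + c) - 3/4 * (b * c)) := by
    unfold et; ring
  have h3 : 0 ≤ (b * c) * (5/4 * (b + c) - 3/4 * (b * c)) := by
    apply mul_nonneg (mul_nonneg hb hc)
    nlinarith
  have := h b hb hb1
  have := h c hc hc1
  linarith

/-- The middle range: a lower bound for `ee b + k b + X`. -/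
theorem mid {b c X k v : ℝ} (hb : 0 ≤ b) (hbc : b ≤ c) (h1 : 1/5 ≤ c) (h2 : c ≤ 3/4)
    (hX0 : 0 ≤ X) (hX1 : et (1/2) 1 b c ≤ X) (hX2 : et (1/4) 1 b c ≤ X)
    (hX3 : et (1/2) 2 b c ≤ X)
    (hcase : (v = 46/100 - (2 * ee c + m1 c c) ∧ k = c^2) ∨
      (v = 1/2 - (2 * ee c + m1 c c) ∧ k = 49/100)) : v ≤ ee b + k * b + X := by
  rcases le_total c (2/5) with h | h
  · -- `c ≤ 2/5`
    have hb2 : b ≤ 2/5 := hbc.trans h
    rcases hcase with ⟨hv, hk1⟩ | ⟨hv, hk1⟩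
    · have := conc (t := 1/4) (l := 1) (c := c) (k := k) (b := b) (b0 := c) (v := v) hb hbc
        (by linarith) (by nlinarith [mul_nonneg hb (sub_nonneg.2 hbc), sq_nonneg b, sq_nonneg c])
        (by rw [hv]; exact B0 h1 h) (by rw [hv, hk1]; exact B1 h1 h)
      linarith
    · have := conc (t := 1/2) (l := 1) (c := c) (k := k) (b := b) (b0 := c) (v := v) hb hbc
        (by linarith) (by nlinarith [mul_nonneg hb (sub_nonneg.2 hbc), sq_nonneg b, sq_nonneg c])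
        (by rw [hv]; exact B0' h1 h) (by rw [hv, hk1]; exact B1' h1 h)
      linarith
  · -- `2/5 ≤ c`
    have hW : ∀ b0 : ℝ, 0 ≤ b0 → b0 ≤ 22/100 → b0 ≤ b →
        0 ≤ 5/2 - 2*(b+b0+c) + 1/2*(b^2+b0^2+c^2+b*b0+b*c+b0*c) := by
      intro b0 h00 h01 h02
      nlinarith [mul_nonneg h00 (sub_nonneg.2 h02), mul_nonneg (sub_nonneg.2 hbc) (sub_nonneg.2 h2),
        mul_nonneg (sub_nonneg.2 h01) (sub_nonneg.2 h2), sq_nonneg (b - 3/4), sq_nonneg (c - 3/4),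
        mul_nonneg (sub_nonneg.2 h01) (sub_nonneg.2 hbc), mul_nonneg h00 h00]
    have hW2 : ∀ b0 : ℝ, 0 < b0 → b0 ≤ 22/100 → b ≤ b0 →
        c * ((2*(1/2) - (1/2)^2)*(1-c) + (1/2)*2) ≤ 5/2 - 2*(b+b0) + 1/2*(b^2+b*b0+b0^2) := by
      intro b0 h00 h01 h02
      nlinarith [mul_nonneg hb h00.le, sq_nonneg b, sq_nonneg b0,
        mul_nonneg (sub_nonneg.2 h) (sub_nonneg.2 h2)]
    rcases hcase with ⟨hv, hk1⟩ | ⟨hv, hk1⟩
    · rcases le_total b (22/100) with hb3 | hb3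
      · have := conc (t := 1/2) (l := 2) (c := c) (k := k) (b := b) (b0 := 22/100) (v := v) hb hb3
          (by norm_num) (hW2 _ (by norm_num) (by norm_num) hb3)
          (by rw [hv]; exact C0 h h2) (by rw [hv, hk1]; exact C1 h h2)
        linarith
      · have := chord (c := c) (k := k) (b := b) (b0 := 22/100) (v := v) hb3 hbc (by linarith)
          (hW _ (by norm_num) (by norm_num) hb3) (by rw [hv, hk1]; exact C2 h h2)
          (by rw [hv, hk1]; exact C3 h h2)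
        linarith
    · rcases le_total c (11/20) with hc3 | hc3
      · rcases le_total b (22/100) with hb3 | hb3
        · have := conc (t := 1/2) (l := 2) (c := c) (k := k) (b := b) (b0 := 22/100) (v := v) hb hb3
            (by norm_num) (hW2 _ (by norm_num) (by norm_num) hb3)
            (by rw [hv]; exact D0 h h2) (by rw [hv, hk1]; exact D1 h hc3)
          linarith
        · have := chord (c := c) (k := k) (b := b) (b0 := 22/100) (v := v) hb3 hbc (by linarith)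
            (hW _ (by norm_num) (by norm_num) hb3) (by rw [hv, hk1]; exact D2 h hc3)
            (by rw [hv, hk1]; exact D3 h h2)
          linarith
      · rcases le_total b (12/100) with hb3 | hb3
        · have := conc (t := 1/2) (l := 2) (c := c) (k := k) (b := b) (b0 := 12/100) (v := v) hb hb3
            (by norm_num) (hW2 _ (by norm_num) (by norm_num) hb3)
            (by rw [hv]; exact D0 h h2) (by rw [hv, hk1]; exact D1' hc3 h2)
          linarith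
        · have := chord (c := c) (k := k) (b := b) (b0 := 12/100) (v := v) hb3 hbc (by linarith)
            (hW _ (by norm_num) (by norm_num) hb3) (by rw [hv, hk1]; exact D2' hc3 h2)
            (by rw [hv, hk1]; exact D3 h h2)
          linarith

/-- The polynomial inequality, sorted form. -/
theorem poly {a b c X H : ℝ} (hb : 0 ≤ b) (hbc : b ≤ c) (hca : c ≤ a) (ha : a ≤ 1)
    (hX0 : 0 ≤ X) (hX1 : et (1/2) 1 b c ≤ X) (hX2 : et (1/4) 1 b c ≤ X)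
    (hX3 : et (1/2) 2 b c ≤ X) (hH0 : 0 ≤ H) (hH : a ≤ 7/10 → 1/25 ≤ H) :
    1/2 ≤ ee a + ee b + ee c + m1 a b + m1 a c + X + H := by
  have hc : 0 ≤ c := hb.trans hbc
  have h0a : 0 ≤ a := hc.trans hca
  have hea := ee_nonneg h0a ha
  have heb := ee_nonneg hb ((hbc.trans hca).trans ha)
  have hec := ee_nonneg hc (hca.trans ha)
  have hm1 := m1_nonneg h0a hb
  have hm2 := m1_nonneg h0a hc
  have hmb : a ^ 2 * b ≤ m1 a b := by
    unfold m1
    have : 0 ≤ a * b ^ 2 * (1 - a) ^ 2 := by positivity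
    linarith
  have hmc : a ^ 2 * c ≤ m1 a c := by
    unfold m1
    have : 0 ≤ a * c ^ 2 * (1 - a) ^ 2 := by positivity
    linarith
  rcases le_total c (1/5) with h | h
  · have hs := small hb (hbc.trans h) hc h
    rcases le_total a (7/10) with h7 | h7
    · have := hH h7
      linarith
    · have h49 : 49/100 ≤ a ^ 2 := by nlinarith
      have h1 := mul_le_mul_of_nonneg_right h49 hb
      have h2 := mul_le_mul_of_nonneg_right h49 hc
      linarith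
  · have hstep := step_a h hca ha
    rcases le_total (3/4) c with h34 | h34
    · have := big h34 (hca.trans ha)
      linarith
    rcases le_total a (7/10) with h7 | h7
    · have hH' := hH h7
      have hk : c ^ 2 * b ≤ a ^ 2 * b := by
        apply mul_le_mul_of_nonneg_right _ hb
        exact pow_le_pow_left₀ hc hca 2
      have := mid (k := c^2) (v := 46/100 - (2 * ee c + m1 c c)) hb hbc h h34 hX0
        hX1 hX2 hX3 (Or.inl ⟨rfl, rfl⟩)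
      linarith
    · have h49 : 49/100 ≤ a ^ 2 := by nlinarith
      have h1 := mul_le_mul_of_nonneg_right h49 hb
      have := mid (k := 49/100) (v := 1/2 - (2 * ee c + m1 c c)) hb hbc h h34 hX0
        hX1 hX2 hX3 (Or.inr ⟨rfl, rfl⟩)
      linarith

end Pool.Agent.H87.Br
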