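import Pool.Agent.H46.BrouwerLocal
import Pool.Agent.H87.Br.Poly

/-!
# The certificate for `2K₂` and `C₅`

Let `a` be adjacent to `d` and `b` adjacent to `c`, with `a` not adjacent to `b` and `c`, and let
`P a a` be the largest of the four diagonal entries. Then the signless Brouwer inequality holds.
-/

set_option autoImplicit false

namespace Pool.Agent.H87.Br

open Pool.Agent.H46.Brouwer (Bound Xe Xn XX bound_of_four XX_adj XX_not XX_nonneg entry_sq_le
  entry_sq_le' Xe_nonneg Xn_nonneg diag_nonneg diag_le_one Xe_comm XX_comm)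

theorem m1_le_Xn {a c : ℝ} (ha : 0 ≤ a) (hc : 0 ≤ c) (h : a * c < 1) :
    m1 a c ≤ Xn a c := by
  have h1 : 0 < 1 - a * c := by linarith
  have e : Xn a c - m1 a c = a * c ^ 2 * (1 - a) ^ 2 * (a * c) / (1 - a * c) := by
    unfold Xn m1
    field_simp
    ring
  have : 0 ≤ a * c ^ 2 * (1 - a) ^ 2 * (a * c) / (1 - a * c) := by positivity
  linarith

theorem et_le_Xe {t l b c x : ℝ} (ht : 0 ≤ t) (hl : 0 < l) (hb : 0 ≤ b) (hc : 0 ≤ c)
    (hb1 : b ≤ 1) (hc1 : c ≤ 1) (hx : x ^ 2 ≤ b * c) (hx' : x ^ 2 ≤ (1 - b) * (1 - c)) :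
    et t l b c ≤ Xe b c x := by
  have h1 : 0 ≤ 1 - b := by linarith
  have h2 : 0 ≤ 1 - c := by linarith
  have h3 : 0 ≤ 1 - b * c := by nlinarith
  have h2x : 2 * x ≤ l * b + c / l := by
    have hs : (2 * x) ^ 2 ≤ (l * b + c / l) ^ 2 := by
      have e : (l * b + c / l) ^ 2 = (l * b - c / l) ^ 2 + 4 * (b * c) := by
        field_simp
        ring
      rw [e]
      nlinarith [sq_nonneg (l * b - c / l)]
    exact (le_abs_self _).trans (abs_le_of_sq_le_sq hs (by positivity))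
  have hle : et t l b c ≤ (1 - b * c) * ((2 * t - t ^ 2) * ((1 - b) * (1 - c)) - t * (2 * x)) := by
    unfold et
    apply mul_le_mul_of_nonneg_left _ h3
    have := mul_le_mul_of_nonneg_left h2x ht
    linarith
  refine hle.trans ?_
  unfold Xe
  rcases eq_or_lt_of_le (mul_nonneg h1 h2) with h | h
  · have hx0 : x = 0 := by
      have : x ^ 2 ≤ 0 := by rw [h]; exact hx'
      nlinarith [sq_nonneg x]
    rw [← h, hx0]
    simp
  · rw [mul_div_assoc]
    apply mul_le_mul_of_nonneg_left _ h3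
    rw [le_div_iff₀ h]
    nlinarith [sq_nonneg ((1 - t) * ((1 - b) * (1 - c)) - x)]

/-- The contribution of the second vertex of the edge at `a`. -/
theorem hstep {a d Y : ℝ} (hd : 0 ≤ d) (hda : d ≤ a) (ha : a ≤ 7/10) (hY0 : 0 ≤ Y)
    (hY : et (1/2) 4 d a ≤ Y) : 1/25 ≤ ee d + Y := by
  rcases le_total d (45/1000) with h | h
  · have h1 : 1/25 ≤ ee d + et (1/2) 4 d a := by
      unfold ee et
      nlinarith [mul_nonneg hd (sub_nonneg.2 h), mul_nonneg hd (sub_nonneg.2 ha),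
        mul_nonneg (sub_nonneg.2 h) (sub_nonneg.2 ha),
        mul_nonneg (mul_nonneg hd (sub_nonneg.2 h)) (sub_nonneg.2 ha),
        mul_nonneg (mul_nonneg hd (sub_nonneg.2 h)) hd,
        mul_nonneg hd (sub_nonneg.2 hda), mul_nonneg (mul_nonneg hd hd) (sub_nonneg.2 ha)]
    linarith
  · have hd7 : d ≤ 7/10 := hda.trans ha
    have := chord (c := 7/10) (k := 0) (b := d) (b0 := 45/1000) (v := 1/25) h hd7 (by norm_num)
      (by nlinarith [mul_nonneg hd (sub_nonneg.2 hd7)]) (by unfold ee; norm_num)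
      (by unfold ee; norm_num)
    linarith

/-- The real inequality. -/
theorem real_ineq {A B C D x y : ℝ} (hB : 0 ≤ B) (hC : 0 ≤ C) (hD : 0 ≤ D) (hA1 : A ≤ 1)
    (hBA : B ≤ A) (hCA : C ≤ A) (hDA : D ≤ A) (hx : x ^ 2 ≤ B * C)
    (hx' : x ^ 2 ≤ (1 - B) * (1 - C)) (hy : y ^ 2 ≤ A * D) (hy' : y ^ 2 ≤ (1 - A) * (1 - D))
    (hAB : A * B < 1) (hAC : A * C < 1) :
    1/2 ≤ ee A + ee B + ee C + ee D + Xn A B + Xn A C + Xe A D y + Xe B C x := by
  have hA : 0 ≤ A := hB.trans hBA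
  have hB1 : B ≤ 1 := hBA.trans hA1
  have hC1 : C ≤ 1 := hCA.trans hA1
  have hD1 : D ≤ 1 := hDA.trans hA1
  have k1 := m1_le_Xn hA hB hAB
  have k2 := m1_le_Xn hA hC hAC
  have hY0 : 0 ≤ Xe A D y := Xe_nonneg hA hA1 hD hD1
  have hX0 : 0 ≤ Xe B C x := Xe_nonneg hB hB1 hC hC1
  have hH0 : 0 ≤ ee D + Xe A D y := add_nonneg (ee_nonneg hD hD1) hY0
  have hH : A ≤ 7/10 → 1/25 ≤ ee D + Xe A D y := by
    intro h7
    refine hstep hD hDA h7 hY0 ?_
    rw [Xe_comm]
    exact et_le_Xe (by norm_num) (by norm_num) hD hA hD1 hA1 (by rw [mul_comm]; exact hy)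
      (by rw [mul_comm]; exact hy')
  rcases le_total B C with h | h
  · have := poly (X := Xe B C x) (H := ee D + Xe A D y) hB h hCA hA1 hX0
      (et_le_Xe (by norm_num) (by norm_num) hB hC hB1 hC1 hx hx')
      (et_le_Xe (by norm_num) (by norm_num) hB hC hB1 hC1 hx hx')
      (et_le_Xe (by norm_num) (by norm_num) hB hC hB1 hC1 hx hx') hH0 hH
    linarith
  · have hx2 : x ^ 2 ≤ C * B := by rw [mul_comm]; exact hx
    have hx2' : x ^ 2 ≤ (1 - C) * (1 - B) := by rw [mul_comm]; exact hx'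
    have := poly (X := Xe C B x) (H := ee D + Xe A D y) hC h hBA hA1
      (by rw [Xe_comm]; exact hX0)
      (et_le_Xe (by norm_num) (by norm_num) hC hB hC1 hB1 hx2 hx2')
      (et_le_Xe (by norm_num) (by norm_num) hC hB hC1 hB1 hx2 hx2')
      (et_le_Xe (by norm_num) (by norm_num) hC hB hC1 hB1 hx2 hx2') hH0 hH
    rw [Xe_comm C B] at this
    linarith

theorem ee_eq (p : ℝ) : Pool.Agent.H46.Brouwer.ee p = ee p := rfl

section graph

variable {V : Type} [Fintype V] [DecidableEq V]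

/-- The certificate. -/
theorem le_of_quad {P : Matrix V V ℝ} (hs : P.transpose = P) (hi : P * P = P)
    (G : SimpleGraph V) [DecidableRel G.Adj]
    (hN : ∀ u v, u ≠ v → ¬ G.Adj u v → P u u + P v v + 2 * P u v - 1 ≤ 0)
    {a d b c : V} (had : G.Adj a d) (hbc : G.Adj b c) (nab : a ≠ b) (nac : a ≠ c)
    (ndb : d ≠ b) (ndc : d ≠ c) (hab : ¬ G.Adj a b) (hac : ¬ G.Adj a c)
    (h1 : P b b ≤ P a a) (h2 : P c c ≤ P a a) (h3 : P d d ≤ P a a) : Bound P G := by
  have hlt : ∀ u, a ≠ u → ¬ G.Adj a u → P a a * P u u < 1 := by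
    intro u hu hadj
    by_contra hcon
    push Not at hcon
    have ha1 := diag_le_one hs hi a
    have hu1 := diag_le_one hs hi u
    have ha0 := diag_nonneg hs hi a
    have hu0 := diag_nonneg hs hi u
    have e1 : P a a = 1 := by nlinarith
    have e2 : P u u = 1 := by nlinarith
    have h := entry_sq_le' hs hi hu
    rw [e1, e2] at h
    have e3 : P a u = 0 := by nlinarith [sq_nonneg (P a u)]
    have := hN a u hu hadj
    rw [e1, e2, e3] at this
    norm_num at this
  have key := real_ineq (diag_nonneg hs hi b) (diag_nonneg hs hi c) (diag_nonneg hs hi d)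
    (diag_le_one hs hi a) h1 h2 h3 (entry_sq_le hs hi b c) (entry_sq_le' hs hi (G.ne_of_adj hbc))
    (entry_sq_le hs hi a d) (entry_sq_le' hs hi (G.ne_of_adj had)) (hlt b nab hab)
    (hlt c nac hac)
  refine bound_of_four hs hi G nab nac (G.ne_of_adj had) (G.ne_of_adj hbc) ndb.symm ndc.symm ?_
  rw [XX_not hab, XX_not hac, XX_adj had, XX_adj hbc]
  have p1 := XX_nonneg hs hi G b d
  have p2 := XX_nonneg hs hi G c d
  simp only [ee_eq]
  linarith

end graph

/-- The case of an induced `2K₂`. -/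
theorem h2K (V : Type) [Fintype V] [DecidableEq V] (P : Matrix V V ℝ) (hs : P.transpose = P)
    (hi : P * P = P) (G : SimpleGraph V) [DecidableRel G.Adj]
    (_hE : ∀ u v, G.Adj u v → 0 ≤ P u u + P v v + 2 * P u v - 1)
    (hN : ∀ u v, u ≠ v → ¬ G.Adj u v → P u u + P v v + 2 * P u v - 1 ≤ 0)
    (a b c d : V) (hab : G.Adj a b) (hcd : G.Adj c d) (nac : a ≠ c) (nad : a ≠ d) (nbc : b ≠ c)
    (nbd : b ≠ d) (hac : ¬ G.Adj a c) (had : ¬ G.Adj a d) (hbc : ¬ G.Adj b c)
    (hbd : ¬ G.Adj b d) : Bound P G := by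
  rcases le_total (P a a) (P b b) with h1 | h1 <;> rcases le_total (P c c) (P d d) with h2 | h2
  · rcases le_total (P b b) (P d d) with h3 | h3
    · exact le_of_quad hs hi G hN hcd.symm hab nad.symm nbd.symm nac.symm nbc.symm
        (fun h => had h.symm) (fun h => hbd h.symm) (h1.trans h3) h3 h2
    · exact le_of_quad hs hi G hN hab.symm hcd nbc nbd nac nad hbc hbd (h2.trans h3) h3 h1
  · rcases le_total (P b b) (P c c) with h3 | h3
    · exact le_of_quad hs hi G hN hcd hab nac.symm nbc.symm nad.symm nbd.symm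
        (fun h => hac h.symm) (fun h => hbc h.symm) (h1.trans h3) h3 h2
    · exact le_of_quad hs hi G hN hab.symm hcd nbc nbd nac nad hbc hbd h3 (h2.trans h3) h1
  · rcases le_total (P a a) (P d d) with h3 | h3
    · exact le_of_quad hs hi G hN hcd.symm hab nad.symm nbd.symm nac.symm nbc.symm
        (fun h => had h.symm) (fun h => hbd h.symm) h3 (h1.trans h3) h2
    · exact le_of_quad hs hi G hN hab hcd nac nad nbc nbd hac had (h2.trans h3) h3 h1
  · rcases le_total (P a a) (P c c) with h3 | h3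
    · exact le_of_quad hs hi G hN hcd hab nac.symm nbc.symm nad.symm nbd.symm
        (fun h => hac h.symm) (fun h => hbc h.symm) h3 (h1.trans h3) h2
    · exact le_of_quad hs hi G hN hab hcd nac nad nbc nbd hac had h3 (h2.trans h3) h1

/-- The case of an induced `C₅`, when the first vertex has the largest diagonal entry. -/
theorem c5_of_max {V : Type} [Fintype V] [DecidableEq V] {P : Matrix V V ℝ}
    (hs : P.transpose = P) (hi : P * P = P) (G : SimpleGraph V) [DecidableRel G.Adj]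
    (hN : ∀ u v, u ≠ v → ¬ G.Adj u v → P u u + P v v + 2 * P u v - 1 ≤ 0)
    {a b c d : V} (hab : G.Adj a b) (hcd : G.Adj c d) (nac : a ≠ c) (nda : d ≠ a) (nbd : b ≠ d)
    (hbc : G.Adj b c) (hac : ¬ G.Adj a c) (hda : ¬ G.Adj d a)
    (h1 : P b b ≤ P a a) (h2 : P c c ≤ P a a) (h3 : P d d ≤ P a a) : Bound P G :=
  le_of_quad hs hi G hN hab hcd nac nda.symm (G.ne_of_adj hbc) nbd hac (fun h => hda h.symm)
    h2 h3 h1

/-- The case of an induced `C₅`. -/
theorem hC5 (V : Type) [Fintype V] [DecidableEq V] (P : Matrix V V ℝ) (hs : P.transpose = P)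
    (hi : P * P = P) (G : SimpleGraph V) [DecidableRel G.Adj]
    (_hE : ∀ u v, G.Adj u v → 0 ≤ P u u + P v v + 2 * P u v - 1)
    (hN : ∀ u v, u ≠ v → ¬ G.Adj u v → P u u + P v v + 2 * P u v - 1 ≤ 0)
    (a b c d e : V) (hab : G.Adj a b) (hbc : G.Adj b c) (hcd : G.Adj c d) (hde : G.Adj d e)
    (hea : G.Adj e a) (nac : a ≠ c) (nbd : b ≠ d) (nce : c ≠ e) (nda : d ≠ a) (neb : e ≠ b)
    (hac : ¬ G.Adj a c) (hbd : ¬ G.Adj b d) (hce : ¬ G.Adj c e) (hda : ¬ G.Adj d a)
    (heb : ¬ G.Adj e b) : Bound P G := by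
  have hmax : ∃ u ∈ ({a, b, c, d, e} : Finset V), ∀ v ∈ ({a, b, c, d, e} : Finset V),
      P v v ≤ P u u := Finset.exists_max_image _ (fun v => P v v) ⟨a, by simp⟩
  obtain ⟨u, hu, hm⟩ := hmax
  have ma := hm a (by simp)
  have mb := hm b (by simp)
  have mc := hm c (by simp)
  have md := hm d (by simp)
  have me := hm e (by simp)
  simp only [Finset.mem_insert, Finset.mem_singleton] at hu
  rcases hu with rfl | rfl | rfl | rfl | rfl
  · exact c5_of_max hs hi G hN hab hcd nac nda nbd hbc hac hda mb mc md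
  · exact c5_of_max hs hi G hN hbc hde nbd neb nce hcd hbd heb mc md me
  · exact c5_of_max hs hi G hN hcd hea nce nac nda hde hce hac md me ma
  · exact c5_of_max hs hi G hN hde hab nda nbd neb hea hda hbd me ma mb
  · exact c5_of_max hs hi G hN hea hbc neb nce nac hab heb hce ma mb mc

end Pool.Agent.H87.Br
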